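import Pool.Agent.R284.RC.Stm
import Pool.Agent.Helper88.RB.P_exists_min
import Pool.Agent.Helper88.RB.P_variational
import Pool.Agent.Helper88.RB.P_upper
import Pool.Agent.Helper88.RB.P_EI_pos

/-!
# RC-BR4: equilibrium measure of a compact set of positive Riesz capacity
-/

set_option autoImplicit false
open MeasureTheory Set Filter Topology
open scoped ENNReal NNReal

namespace Pool.Agent.R650.RC

open Pool.Agent.R284.RC

theorem pot_eq {n : ℕ} (q : ℝ) (μ : Measure (E n)) (x : E n) :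
    Pot q μ x = Helper88.RB.PE q μ x := by
  unfold Pot Helper88.RB.PE
  refine lintegral_congr fun y => ?_
  rw [edist_dist]

theorem iq_eq {n : ℕ} (q : ℝ) (μ : Measure (E n)) : Iq q μ = Helper88.RB.En q μ := by
  unfold Iq Helper88.RB.En
  refine lintegral_congr fun x => ?_
  exact pot_eq q μ x

theorem cap_eq {n : ℕ} {q : ℝ} (hq : 0 < q) (K : Set (E n)) :
    cap q K = (Helper88.RB.EI q K ^ (-1 / q)).toReal := by
  unfold cap
  rw [if_neg hq.ne']
  congr 2
  unfold Helper88.RB.EI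
  refine iInf_congr fun μ => ?_
  rw [iInf_and]
  refine iInf_congr fun _ => iInf_congr fun _ => ?_
  exact iq_eq q μ

/-- almost everywhere lower bound of the equilibrium potential -/
theorem lower_ae {n : ℕ} {s : ℝ} (hs : 0 < s) {K : Set (E n)} {μ : Measure (E n)}
    (h1 : μ Set.univ = 1) (h2 : μ Kᶜ = 0) (h3 : Helper88.RB.En s μ = Helper88.RB.EI s K)
    (h4 : Helper88.RB.EI s K ≠ ∞) : ∀ᵐ x ∂μ, Helper88.RB.EI s K ≤ Helper88.RB.PE s μ x := by
  haveI : IsFiniteMeasure μ := ⟨by rw [h1]; exact ENNReal.one_lt_top⟩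
  have hm := Helper88.RB.var_PE_meas s μ
  by_contra hcon
  rw [ae_iff] at hcon
  have hset : {a | ¬ Helper88.RB.EI s K ≤ Helper88.RB.PE s μ a} =
      {a | Helper88.RB.PE s μ a < Helper88.RB.EI s K} := by
    ext a; simp
  rw [hset] at hcon
  set D : Set (E n) := {a | Helper88.RB.PE s μ a < Helper88.RB.EI s K} with hD
  have hDm : MeasurableSet D := measurableSet_lt hm measurable_const
  set m := μ D with hmD
  have hmtop : m ≠ ∞ := measure_ne_top μ D
  set σ : Measure (E n) := m⁻¹ • μ.restrict D with hσ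
  have g1 : σ Set.univ = 1 := by
    rw [hσ, Measure.smul_apply, Measure.restrict_apply_univ, smul_eq_mul]
    exact ENNReal.inv_mul_cancel hcon hmtop
  have g2 : σ Kᶜ = 0 := by
    rw [hσ, Measure.smul_apply, smul_eq_mul]
    have : μ.restrict D Kᶜ ≤ μ Kᶜ := Measure.restrict_apply_le D Kᶜ
    rw [h2] at this
    rw [nonpos_iff_eq_zero.1 this, mul_zero]
  have hle : Helper88.RB.En s (μ.restrict D) ≤ Helper88.RB.En s μ := by
    unfold Helper88.RB.En
    refine (lintegral_mono fun x => lintegral_mono' Measure.restrict_le_self le_rfl).trans ?_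
    exact lintegral_mono' Measure.restrict_le_self le_rfl
  have g3 : Helper88.RB.En s σ ≠ ∞ := by
    have : Helper88.RB.En s σ = m⁻¹ * (m⁻¹ * Helper88.RB.En s (μ.restrict D)) := by
      rw [hσ]
      unfold Helper88.RB.En
      rw [lintegral_smul_measure, smul_eq_mul]
      congr 1
      rw [← lintegral_const_mul' _ _ (ENNReal.inv_ne_top.2 hcon)]
      refine lintegral_congr fun x => ?_
      rw [lintegral_smul_measure, smul_eq_mul]
    rw [this]
    refine ENNReal.mul_ne_top (ENNReal.inv_ne_top.2 hcon) (ENNReal.mul_ne_top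
      (ENNReal.inv_ne_top.2 hcon) (ne_top_of_le_ne_top ?_ hle))
    rw [h3]; exact h4
  have hv := Helper88.RB.variational hs h1 h2 h3 h4 g1 g2 g3
  have hlt : ∫⁻ x, Helper88.RB.PE s μ x ∂σ < Helper88.RB.EI s K := by
    have e1 : ∫⁻ x, Helper88.RB.PE s μ x ∂σ < ∫⁻ _, Helper88.RB.EI s K ∂σ := by
      refine lintegral_strict_mono (μ := σ) ?_ aemeasurable_const ?_ ?_
      · intro h0
        rw [h0] at g1
        simp at g1
      · have : ∫⁻ x, Helper88.RB.PE s μ x ∂σ ≤ ∫⁻ _, Helper88.RB.EI s K ∂σ := by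
          refine lintegral_mono_ae ?_
          rw [hσ]
          refine Measure.ae_smul_measure ?_ _
          refine (ae_restrict_mem hDm).mono fun x hx => ?_
          exact le_of_lt hx
        refine ne_top_of_le_ne_top ?_ this
        rw [lintegral_const, g1, mul_one]
        exact h4
      · rw [hσ]
        refine Measure.ae_smul_measure ?_ _
        exact (ae_restrict_mem hDm).mono fun x hx => hx
    rwa [lintegral_const, g1, mul_one] at e1
  exact absurd hv (not_le.2 hlt)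

/-- upper bound on the support -/
theorem upper_ae {n : ℕ} {s : ℝ} (hs : 0 < s) {K : Set (E n)} {μ : Measure (E n)}
    (h1 : μ Set.univ = 1) (h3 : Helper88.RB.En s μ = Helper88.RB.EI s K)
    (h4 : Helper88.RB.EI s K ≠ ∞) (hae : ∀ᵐ z ∂μ, Helper88.RB.EI s K ≤ Helper88.RB.PE s μ z)
    (x : E n) (hx : ∀ N ∈ 𝓝 x, 0 < μ N) : Helper88.RB.PE s μ x ≤ Helper88.RB.EI s K := by
  by_contra hcon
  rw [not_le] at hcon
  obtain ⟨c, hc1, hc2⟩ := exists_between hcon
  have hopen : IsOpen (Helper88.RB.PE s μ ⁻¹' Ioi c) := (Helper88.RB.upper_lsc hs μ).isOpen_preimage c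
  have hN : MeasurableSet (Helper88.RB.PE s μ ⁻¹' Ioi c) := hopen.measurableSet
  have hpos : 0 < μ (Helper88.RB.PE s μ ⁻¹' Ioi c) := hx _ (hopen.mem_nhds hc2)
  have hfin : μ (Helper88.RB.PE s μ ⁻¹' Ioi c) ≠ ∞ := by
    refine ne_top_of_le_ne_top ENNReal.one_ne_top ?_
    rw [← h1]
    exact measure_mono (Set.subset_univ _)
  have h5 : Helper88.RB.EI s K = ∫⁻ z in Helper88.RB.PE s μ ⁻¹' Ioi c, Helper88.RB.PE s μ z ∂μ +
      ∫⁻ z in (Helper88.RB.PE s μ ⁻¹' Ioi c)ᶜ, Helper88.RB.PE s μ z ∂μ := by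
    rw [lintegral_add_compl _ hN, ← h3]
    rfl
  have h6 : c * μ (Helper88.RB.PE s μ ⁻¹' Ioi c) ≤
      ∫⁻ z in Helper88.RB.PE s μ ⁻¹' Ioi c, Helper88.RB.PE s μ z ∂μ := by
    rw [← setLIntegral_const]
    exact setLIntegral_mono' hN fun z hz => le_of_lt hz
  have h7 : Helper88.RB.EI s K * μ (Helper88.RB.PE s μ ⁻¹' Ioi c)ᶜ ≤
      ∫⁻ z in (Helper88.RB.PE s μ ⁻¹' Ioi c)ᶜ, Helper88.RB.PE s μ z ∂μ := by
    rw [← setLIntegral_const]
    exact lintegral_mono_ae (ae_restrict_of_ae hae)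
  have h8 : μ (Helper88.RB.PE s μ ⁻¹' Ioi c) + μ (Helper88.RB.PE s μ ⁻¹' Ioi c)ᶜ = 1 := by
    rw [measure_add_measure_compl hN, h1]
  have hfin2 : Helper88.RB.EI s K * μ (Helper88.RB.PE s μ ⁻¹' Ioi c)ᶜ ≠ ∞ := by
    refine ENNReal.mul_ne_top h4 ?_
    refine ne_top_of_le_ne_top ENNReal.one_ne_top ?_
    rw [← h1]
    exact measure_mono (Set.subset_univ _)
  have h9 : c * μ (Helper88.RB.PE s μ ⁻¹' Ioi c) +
      Helper88.RB.EI s K * μ (Helper88.RB.PE s μ ⁻¹' Ioi c)ᶜ ≤
      Helper88.RB.EI s K * μ (Helper88.RB.PE s μ ⁻¹' Ioi c) +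
      Helper88.RB.EI s K * μ (Helper88.RB.PE s μ ⁻¹' Ioi c)ᶜ := by
    calc _ ≤ Helper88.RB.EI s K := by
          conv_rhs => rw [h5]
          exact add_le_add h6 h7
      _ = _ := by rw [← mul_add, h8, mul_one]
  have h10 : c * μ (Helper88.RB.PE s μ ⁻¹' Ioi c) ≤
      Helper88.RB.EI s K * μ (Helper88.RB.PE s μ ⁻¹' Ioi c) :=
    (ENNReal.add_le_add_iff_right hfin2).1 h9
  have h11 : c ≤ Helper88.RB.EI s K := (ENNReal.mul_le_mul_iff_left hpos.ne' hfin).1 h10
  exact absurd hc1 (not_lt.2 h11)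

theorem ker_cmp {a b : ℝ≥0∞} {q : ℝ} (hq : 0 < q) (h : a ≤ 2 * b) :
    b ^ (-q) ≤ ENNReal.ofReal (2 ^ q) * a ^ (-q) := by
  have h2 : ENNReal.ofReal ((2:ℝ) ^ q) = (2 : ℝ≥0∞) ^ q := by
    rw [← ENNReal.ofReal_rpow_of_pos (by norm_num)]
    simp
  have h20 : (2 : ℝ≥0∞) ^ q ≠ 0 := by
    rw [← h2]
    simp only [ne_eq, ENNReal.ofReal_eq_zero, not_le]
    positivity
  have h2t : (2 : ℝ≥0∞) ^ q ≠ ∞ := by rw [← h2]; exact ENNReal.ofReal_ne_top
  rw [h2, ENNReal.rpow_neg, ENNReal.rpow_neg]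
  have h3 : a ^ q ≤ 2 ^ q * b ^ q := by
    rw [← ENNReal.mul_rpow_of_nonneg _ _ hq.le]
    exact ENNReal.rpow_le_rpow h hq.le
  calc (b ^ q)⁻¹ = 2 ^ q * ((2 : ℝ≥0∞) ^ q)⁻¹ * (b ^ q)⁻¹ := by
        rw [ENNReal.mul_inv_cancel h20 h2t, one_mul]
    _ = 2 ^ q * (2 ^ q * b ^ q)⁻¹ := by
        rw [ENNReal.mul_inv (Or.inl h20) (Or.inl h2t), mul_assoc]
    _ ≤ 2 ^ q * (a ^ q)⁻¹ := by
        gcongr

theorem br4_proof : S_br4 := by
  intro n q hq K hK hcap
  rw [cap_eq hq] at hcap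
  have htop : Helper88.RB.EI q K ≠ ∞ := by
    intro h
    rw [h, ENNReal.top_rpow_of_neg (div_neg_of_neg_of_pos (by norm_num) hq)] at hcap
    simp at hcap
  have hpos : 0 < Helper88.RB.EI q K := Helper88.RB.EI_pos hq hK
  have hne : K.Nonempty := by
    rw [Set.nonempty_iff_ne_empty]
    intro h
    apply htop
    unfold Helper88.RB.EI
    rw [h]
    refine le_antisymm le_top ?_
    refine le_iInf fun μ => le_iInf fun g1 => le_iInf fun g2 => ?_
    rw [Set.compl_empty, g1] at g2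
    simp at g2
  obtain ⟨ν, h1, h2, h3⟩ := Helper88.RB.exists_min hq hK hne
  haveI hprob : IsProbabilityMeasure ν := ⟨h1⟩
  have hI : Iq q ν = Helper88.RB.EI q K := by rw [iq_eq, h3]
  have hlow := lower_ae hq h1 h2 h3 htop
  have hup : ∀ x ∈ ν.support, Pot q ν x ≤ Iq q ν := by
    intro x hx
    rw [pot_eq, hI]
    exact upper_ae hq h1 h3 htop hlow x ((Measure.mem_support_iff_forall x).1 hx)
  refine ⟨ν, hprob, h2, ?_, ?_, ?_, ?_, ?_⟩
  · rw [hI]; exact lt_top_iff_ne_top.2 htop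
  · rw [hI]; exact ENNReal.toReal_pos hpos.ne' htop
  · rw [cap_eq hq, hI, ENNReal.toReal_rpow]
  · filter_upwards [Measure.support_mem_ae (μ := ν)] with x hx
    exact hup x hx
  · intro x
    obtain ⟨x', hx', hdist⟩ := (Measure.isClosed_support (μ := ν)).exists_infDist_eq_dist
      (Measure.nonempty_support (μ := ν) (IsProbabilityMeasure.ne_zero ν)) x
    have hle : Pot q ν x ≤ ENNReal.ofReal (2 ^ q) * Pot q ν x' := by
      unfold Pot
      rw [← lintegral_const_mul' _ _ ENNReal.ofReal_ne_top]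
      refine lintegral_mono_ae ?_
      filter_upwards [Measure.support_mem_ae (μ := ν)] with y hy
      apply ker_cmp hq
      have e1 : dist x x' ≤ dist x y := by
        rw [← hdist]
        exact Metric.infDist_le_dist_of_mem hy
      have e2 : dist x' y ≤ 2 * dist x y := by
        have := dist_triangle x' x y
        rw [dist_comm x' x] at this
        linarith
      rw [edist_dist, edist_dist]
      calc ENNReal.ofReal (dist x' y) ≤ ENNReal.ofReal (2 * dist x y) :=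
            ENNReal.ofReal_le_ofReal e2
        _ = 2 * ENNReal.ofReal (dist x y) := by
            rw [ENNReal.ofReal_mul (by norm_num)]
            simp
    refine hle.trans ?_
    gcongr
    exact hup x' hx'

end Pool.Agent.R650.RC
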